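import Pool.Agent.Helper98.EQ.Final

namespace Pool.Agent.Results.MP_5b9a11_al.AtLeastOrder

open Pool.Agent.Helper47.EP IsLocalRing

/-- Let `p` be an odd prime and `𝒪` a complete local Noetherian ring with algebraically closed residue
field of characteristic `p`. `OccursIn 𝒪 p D n` means that `n` is a multiplicity `m(Q_δ, P_γ)` of the
pointed fusion system of a block of `𝒪G` with a defect group isomorphic to `D`, where `G` is a finite
group with a normal subgroup `E` of order prime to `p` such that `G = E D` (so the block is nilpotent).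

(1) For EVERY finite `p`-group `D` some such multiplicity is at least `|D| - 1`.
(2) So a bound `N` for the multiplicities of the blocks with defect group `D` is at least `|D| - 1`. -/
theorem result (p : ℕ) [Fact p.Prime] (hp : p ≠ 2) (𝒪 : Type) [CommRing 𝒪] [IsLocalRing 𝒪]
    [IsNoetherianRing 𝒪] [IsAdicComplete (maximalIdeal 𝒪) 𝒪] [IsAlgClosed (ResidueField 𝒪)]
    [CharP (ResidueField 𝒪) p] (D : Type) [Group D] [Finite D] (hD : IsPGroup p D) :
    (∃ n, OccursIn 𝒪 p D n ∧ Nat.card D - 1 ≤ n) ∧
    ∀ N : ℕ, (∀ n, OccursIn 𝒪 p D n → n ≤ N) → Nat.card D - 1 ≤ N := by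
  obtain ⟨n, hn, hb⟩ := Pool.Agent.Helper98.EQ.th_main p hp 𝒪 D hD
  have h1 : Nat.card D - 1 ≤ n := by omega
  exact ⟨⟨n, hn, h1⟩, fun N hN => h1.trans (hN n hn)⟩

end Pool.Agent.Results.MP_5b9a11_al.AtLeastOrder
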