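import Pool.Agent.Helper47.ER.Final

namespace Pool.Agent.Results.MP_5b9a11_al.HomocyclicBound

open Pool.Agent.Helper47.EP IsLocalRing

/-- Let `p` be an odd prime and `𝒪` a complete local Noetherian ring with algebraically closed residue
field of characteristic `p`. `OccursIn 𝒪 p D n` means that `n` is a multiplicity `m(Q_δ, P_γ)` of the
pointed fusion system of a block of `𝒪G` with a defect group isomorphic to `D`, where `G` is a finite
group with a normal subgroup `E` of order prime to `p` such that `G = E D` (so the block is nilpotent).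

(1) Let `D` be a finite `p`-group, `Q` a quotient of `D` and `k ≥ 1`. If `Q` has a subgroup isomorphic
to `(ℤ/p^k)^r`, then some such multiplicity is at least `∏_{1 ≤ j ≤ r} (p^(k j) - p^((k-1) j))`.
(2) So a bound `N` for the multiplicities of the blocks with defect group `D` is at least this number.
(3) For `D = (ℤ/p^k)^r` some such multiplicity `n` satisfies `n² p^r ≥ |D|^(r+1)`. -/
theorem result (p : ℕ) [Fact p.Prime] (hp : p ≠ 2) (𝒪 : Type) [CommRing 𝒪] [IsLocalRing 𝒪]
    [IsNoetherianRing 𝒪] [IsAdicComplete (maximalIdeal 𝒪) 𝒪] [IsAlgClosed (ResidueField 𝒪)]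
    [CharP (ResidueField 𝒪) p] :
    (∀ (D : Type) [Group D] [Finite D], IsPGroup p D →
      ∀ (Q : Type) [Group Q] (φ : D →* Q), Function.Surjective φ →
      ∀ k r : ℕ, 1 ≤ k → ∀ ι : Multiplicative (Fin r → ZMod (p ^ k)) →* Q, Function.Injective ι →
        (∃ n, OccursIn 𝒪 p D n ∧
          ∏ j ∈ Finset.range r, (p ^ (k * (j + 1)) - p ^ ((k - 1) * (j + 1))) ≤ n) ∧
        ∀ N : ℕ, (∀ n, OccursIn 𝒪 p D n → n ≤ N) →
          ∏ j ∈ Finset.range r, (p ^ (k * (j + 1)) - p ^ ((k - 1) * (j + 1))) ≤ N) ∧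
    ∀ k r : ℕ, 1 ≤ k → ∃ n, OccursIn 𝒪 p (Multiplicative (Fin r → ZMod (p ^ k))) n ∧
      (p ^ (k * r)) ^ (r + 1) ≤ n ^ 2 * p ^ r := by
  have hpr := (Fact.out : p.Prime)
  have h3 : 3 ≤ p := by
    have := hpr.two_le
    omega
  refine ⟨?_, ?_⟩
  · intro D _ _ hD Q _ φ hφ k r hk ι hι
    obtain ⟨n, hn, hb⟩ :=
      Pool.Agent.Helper47.ER.th_main p hp 𝒪 D hD Q φ hφ k r hk ι hι
    exact ⟨⟨n, hn, hb⟩, fun N hN => hb.trans (hN n hn)⟩
  · intro k r hk
    have : NeZero (p ^ k) := ⟨pow_ne_zero _ hpr.ne_zero⟩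
    have hD : IsPGroup p (Multiplicative (Fin r → ZMod (p ^ k))) := by
      refine IsPGroup.of_card (n := k * r) ?_
      rw [Nat.card_congr Multiplicative.toAdd, Nat.card_fun, Nat.card_zmod,
        Nat.card_eq_fintype_card, Fintype.card_fin, ← pow_mul]
    obtain ⟨n, hn, hb⟩ := Pool.Agent.Helper47.ER.th_main p hp 𝒪 _ hD _ (MonoidHom.id _)
      Function.surjective_id k r hk (MonoidHom.id _) Function.injective_id
    exact ⟨n, hn, (Pool.Agent.Helper47.ER.bet_sq p h3 k r hk).trans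
      (Nat.mul_le_mul_right _ (Nat.pow_le_pow_left hb 2))⟩

end Pool.Agent.Results.MP_5b9a11_al.HomocyclicBound
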