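import Pool.Agent.Helper17.PF.Growth

namespace Pool.Agent.Results.MP_5b9a11_al.SuperpolynomialMultiplicities

open Pool.Agent.Helper17.PF IsLocalRing

/-- Let `p` be a prime and `𝒪` a complete local ring with algebraically closed residue field of
characteristic `p`. `Occurs 𝒪 p q n` means that `n` is a multiplicity `m(Q_δ, P_γ)` of the pointed
fusion system of a block of `𝒪G`, `G` a finite group, with a defect group of order `q`.

The largest multiplicity is not bounded by a polynomial in the order of the defect group: there is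
`c > 0` such that for arbitrarily large `q` there is a multiplicity `n ≥ q ^ (c log log q)` of a block
with a defect group of order `q`; in particular there is no `C` with `n ≤ C q ^ C` for all the
multiplicities `n` of all the blocks with a defect group of order `q`. -/
theorem result (p : ℕ) [Fact p.Prime] (𝒪 : Type) [CommRing 𝒪] [IsLocalRing 𝒪]
    [IsNoetherianRing 𝒪] [IsAdicComplete (maximalIdeal 𝒪) 𝒪] [IsAlgClosed (ResidueField 𝒪)]
    [CharP (ResidueField 𝒪) p] :
    (∃ c : ℝ, 0 < c ∧ ∀ N : ℕ, ∃ q n : ℕ, N ≤ q ∧ Occurs 𝒪 p q n ∧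
      (q : ℝ) ^ (c * Real.log (Real.log q)) ≤ n) ∧
    ∀ C : ℕ, ∃ q n : ℕ, Occurs 𝒪 p q n ∧ C * q ^ C < n :=
  ⟨occurs_log 𝒪 p, occurs_poly 𝒪 p⟩

end Pool.Agent.Results.MP_5b9a11_al.SuperpolynomialMultiplicities
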